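import Pool.Agent.Helper95.HV.Stmts
import Pool.Agent.Helper39.LN.MTL
import Pool.Agent.Helper10.PW.LIM

/-! # Row PRZ (MP_56acfd_mp): the momentum outside the balls (copy 2, helper74) -/

set_option autoImplicit false

namespace Pool.Agent.Helper74.HV

open MeasureTheory Filter Pool.Agent.Helper95 Pool.Agent.Helper95.PW Pool.Agent.Helper95.LN
  Pool.Agent.Helper95.CF Pool.Agent.Helper95.HV

theorem pd_sub (i : Fin 3) (g h : R3 → ℝ) (hg : ContDiff ℝ (⊤ : ℕ∞) g)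
    (hh : ContDiff ℝ (⊤ : ℕ∞) h) :
    pd i (fun y => g y - h y) = fun y => pd i g y - pd i h y := by
  funext y
  unfold pd
  have h1 : DifferentiableAt ℝ g y := (hg.differentiable (by simp)) y
  have h2 : DifferentiableAt ℝ h y := (hh.differentiable (by simp)) y
  have h3 : fderiv ℝ (fun y => g y - h y) y = fderiv ℝ g y - fderiv ℝ h y :=
    (h1.hasFDerivAt.sub h2.hasFDerivAt).fderiv
  rw [h3]
  rfl

theorem lap_sub (g h : R3 → ℝ) (hg : ContDiff ℝ (⊤ : ℕ∞) g) (hh : ContDiff ℝ (⊤ : ℕ∞) h)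
    (y : R3) : lap (fun y => g y - h y) y = lap g y - lap h y := by
  unfold lap
  rw [← Finset.sum_sub_distrib]
  refine Finset.sum_congr rfl fun i _ => ?_
  rw [pd_sub i g h hg hh, pd_sub i (pd i g) (pd i h) (LIM_sm i g hg) (LIM_sm i h hh)]

theorem PG_sub {n : ℕ} (φ : Wf n) (G : Fin n → Fin 3 → Wf n) (g h : R3 → ℝ)
    (hg : ContDiff ℝ (⊤ : ℕ∞) g) (hh : ContDiff ℝ (⊤ : ℕ∞) h) (s : Fin n → Fin 2) (x : Cf n) :
    PG (fun y => g y - h y) φ G s x = PG g φ G s x - PG h φ G s x := by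
  unfold PG
  rw [← Finset.sum_sub_distrib]
  refine Finset.sum_congr rfl fun k _ => ?_
  rw [lap_sub g h hg hh]
  have e : ∑ i, pd i (fun y => g y - h y) (x k) * G k i s x =
      (∑ i, pd i g (x k) * G k i s x) - ∑ i, pd i h (x k) * G k i s x := by
    rw [← Finset.sum_sub_distrib]
    refine Finset.sum_congr rfl fun i _ => ?_
    rw [pd_sub i g h hg hh]
    ring
  rw [e]
  ring

/-- dominating function -/
noncomputable def FF {n : ℕ} (K c : ℝ) (φ : Wf n) (G : Fin n → Fin 3 → Wf n)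
    (s : Fin n → Fin 2) (x : Cf n) : ℝ := ∑ k, ((∑ i, K * |G k i s x|) + c * |φ s x|)

theorem FF_mem {n : ℕ} (K c : ℝ) (φ : Wf n) (G : Fin n → Fin 3 → Wf n)
    (h1 : ∀ s, MemLp (φ s) 2) (h2 : ∀ k i s, MemLp (G k i s) 2) (s : Fin n → Fin 2) :
    MemLp (FF K c φ G s) 2 := by
  refine memLp_finsetSum _ fun k _ => MemLp.add ?_ ?_
  · exact memLp_finsetSum _ fun i _ => ((h2 k i s).abs).const_mul K
  · exact ((h1 s).abs).const_mul _

theorem PG_meas {n : ℕ} (φ : Wf n) (G : Fin n → Fin 3 → Wf n)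
    (h1 : ∀ s, MemLp (φ s) 2) (h2 : ∀ k i s, MemLp (G k i s) 2) (g : R3 → ℝ)
    (hg : ContDiff ℝ (⊤ : ℕ∞) g) (s : Fin n → Fin 2) :
    AEStronglyMeasurable (PG g φ G s) volume := by
  have hm1 : ∀ (k : Fin n) (i : Fin 3), Continuous fun x : Cf n => pd i g (x k) := fun k i =>
    (LIM_sm i g hg).continuous.comp (continuous_apply k)
  have hm2 : ∀ (k : Fin n), Continuous fun x : Cf n => lap g (x k) := fun k => by
    unfold lap
    refine continuous_finsetSum _ fun i _ => ?_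
    exact (LIM_sm i _ (LIM_sm i g hg)).continuous.comp (continuous_apply k)
  unfold PG
  refine Finset.aestronglyMeasurable_fun_sum _ fun k _ => AEStronglyMeasurable.add ?_ ?_
  · refine Finset.aestronglyMeasurable_fun_sum _ fun i _ => ?_
    exact (hm1 k i).aestronglyMeasurable.mul (h2 k i s).1
  · exact ((hm2 k).div_const 2).aestronglyMeasurable.mul (h1 s).1

theorem PG_le {n : ℕ} (φ : Wf n) (G : Fin n → Fin 3 → Wf n) (K c : ℝ) (g : R3 → ℝ)
    (hK : ∀ i y, |pd i g y| ≤ K) (hc : ∀ y, |lap g y / 2| ≤ c) (s : Fin n → Fin 2)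
    (x : Cf n) : |PG g φ G s x| ≤ FF K c φ G s x := by
  unfold PG FF
  refine (Finset.abs_sum_le_sum_abs _ _).trans ?_
  refine Finset.sum_le_sum fun k _ => (abs_add_le _ _).trans (add_le_add ?_ ?_)
  · refine (Finset.abs_sum_le_sum_abs _ _).trans (Finset.sum_le_sum fun i _ => ?_)
    rw [abs_mul]
    exact mul_le_mul_of_nonneg_right (hK i _) (abs_nonneg _)
  · rw [abs_mul]
    exact mul_le_mul_of_nonneg_right (hc _) (abs_nonneg _)

theorem lap_le {g : R3 → ℝ} {K r : ℝ} (hg : Scale g K r) (y : R3) :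
    |lap g y / 2| ≤ 3 * (K / r) / 2 := by
  rw [abs_div, abs_of_pos (by norm_num : (0 : ℝ) < 2)]
  refine div_le_div_of_nonneg_right ?_ (by norm_num)
  unfold lap
  refine (Finset.abs_sum_le_sum_abs _ _).trans ?_
  refine (Finset.sum_le_card_nsmul _ _ (K / r) fun i _ => hg.d2 i i y).trans (by simp)

/-- the limit of the difference -/
theorem LIMD (hCUT : ST_CUT) {n : ℕ} (φ : Wf n) (G : Fin n → Fin 3 → Wf n) (m : Fin 3)
    (h1 : ∀ s, MemLp (φ s) 2) (h2 : ∀ k i s, MemLp (G k i s) 2) (h : R3 → ℝ) (K' r : ℝ)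
    (hh : Scale h K' r) :
    Tendsto (fun L : ℕ => PW.sq (PG (fun y => gm m ((L : ℝ) + 1) y - h y) φ G)) atTop
      (nhds (PW.sq (fun s x => (∑ k, G k m s x) - PG h φ G s x))) := by
  obtain ⟨K, hK1, hK, -⟩ := hCUT
  have hK0 : 0 ≤ K := by linarith
  unfold PW.sq
  refine tendsto_finsetSum _ fun s _ => ?_
  have hR : ∀ L : ℕ, (0 : ℝ) < (L : ℝ) + 1 := fun L => by positivity
  have hFL : MemLp (fun x => FF K (3 * K / 2) φ G s x + FF K' (3 * (K' / r) / 2) φ G s x) 2 :=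
    (FF_mem K _ φ G h1 h2 s).add (FF_mem K' _ φ G h1 h2 s)
  refine tendsto_integral_of_dominated_convergence
    (fun x => (FF K (3 * K / 2) φ G s x + FF K' (3 * (K' / r) / 2) φ G s x) ^ 2)
    (fun L => ?_) ?_ (fun L => ?_) ?_
  · refine AEStronglyMeasurable.pow ?_ 2
    exact PG_meas φ G h1 h2 _ ((hK m _ (hR L)).1.sm.sub hh.sm) s
  · exact hFL.integrable_sq
  · refine Eventually.of_forall fun x => ?_
    have hc : ∀ y, |lap (gm m ((L : ℝ) + 1)) y / 2| ≤ 3 * K / 2 := by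
      intro y
      refine (lap_le (hK m _ (hR L)).1 y).trans ?_
      have h3 : K / ((L : ℝ) + 1) ≤ K := by
        rw [div_le_iff₀ (hR L)]
        have : (0 : ℝ) ≤ L := by positivity
        nlinarith
      linarith
    have hb1 := PG_le φ G K (3 * K / 2) (gm m ((L : ℝ) + 1)) (hK m _ (hR L)).1.d1 hc s x
    have hb2 := PG_le φ G K' (3 * (K' / r) / 2) h hh.d1 (lap_le hh) s x
    rw [Real.norm_eq_abs, abs_pow]
    refine pow_le_pow_left₀ (abs_nonneg _) ?_ 2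
    rw [PG_sub φ G _ _ (hK m _ (hR L)).1.sm hh.sm]
    exact (abs_sub _ _).trans (add_le_add hb1 hb2)
  · refine Eventually.of_forall fun x => ?_
    refine (tendsto_congr' ?_).mpr tendsto_const_nhds
    have hev : ∀ᶠ L : ℕ in atTop, ∀ k, nr (x k) < (L : ℝ) + 1 := by
      rw [eventually_all]
      intro k
      obtain ⟨N, hN⟩ := exists_nat_gt (nr (x k))
      filter_upwards [eventually_ge_atTop N] with L hL
      have : (N : ℝ) ≤ L := by exact_mod_cast hL
      linarith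
    filter_upwards [hev] with L hL
    congr 1
    rw [PG_sub φ G _ _ (hK m _ (hR L)).1.sm hh.sm]
    congr 1
    unfold PG
    refine Finset.sum_congr rfl fun k _ => ?_
    have he := LIM_ev m ((L : ℝ) + 1) (hK m _ (hR L)).2.1 (x k) (hL k)
    rw [LIM_lap m _ _ he]
    simp only [(LIM_pd _ m _ _ he).eq_of_nhds]
    simp

theorem PRZ (h1 : ST_MRZ) (h2 : ST_PKL) (h3 : ST_TUPZ) (_h4 : ST_LIMG) (h5 : ST_CUT)
    (h6 : ST_FLD) (h7 : ST_APXM) (h8 : ST_LMTM) (h9 : ST_QHM) (h10 : ST_INTM)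
    (h11 : ST_POTB) : ST_PRZ := by
  intro d hd hd1
  obtain ⟨C, hC, HR⟩ := h1 d hd hd1
  obtain ⟨Cq, hCq, HQ⟩ := h2 d hd
  obtain ⟨Ct, hCt, HT⟩ := h3 d hd hd1
  obtain ⟨K, hK, HF⟩ := h6
  obtain ⟨Kc, hKc, HC, -⟩ := id h5
  refine ⟨C * (Ct + 2 + C * (1 + Ct) + Cq), by positivity, ?_⟩
  intro z E n M X Z φ G m hDat hM hEn hG
  have hz1 := hDat.z1
  have hz0 : 0 < z := by linarith
  have hZ0 := hDat.nuc.1
  have hM1 : (1:ℝ) ≤ M := by exact_mod_cast hM
  have hnr0 : ∀ y : R3, 0 ≤ nr y := fun y => Real.sqrt_nonneg _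
  have hnuc : 0 ≤ nucR X Z := by
    unfold nucR
    refine Finset.sum_nonneg fun i _ => Finset.sum_nonneg fun j _ => ?_
    split_ifs
    · exact div_nonneg (mul_nonneg (hZ0 i) (hZ0 j)) (hnr0 _)
    · exact le_rfl
  have hE : E ≤ 0 := by linarith
  have hnz : (n : ℝ) ≤ z * M := by
    rw [← hDat.nuc.2]
    calc ∑ j, Z j ≤ ∑ _j : Fin M, z := Finset.sum_le_sum fun j _ => hDat.le j
      _ = z * M := by simp [mul_comm]
  have hn0 : (0 : ℝ) ≤ n := Nat.cast_nonneg n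
  -- powers of `z`
  obtain ⟨w, hw⟩ : ∃ w : ℝ, w = z ^ (7 / 3 : ℝ) := ⟨_, rfl⟩
  have hw1 : 1 ≤ w := by rw [hw]; exact Real.one_le_rpow hz1 (by norm_num)
  have hzw : z ^ 2 ≤ w := by
    rw [hw, ← Real.rpow_natCast z 2]
    exact Real.rpow_le_rpow_of_exponent_le hz1 (by norm_num)
  have hz3 : z ^ (10 / 3 : ℝ) = z * w := by
    rw [hw]
    have : (10 / 3 : ℝ) = 1 + 7 / 3 := by norm_num
    rw [this, Real.rpow_add hz0, Real.rpow_one]
  obtain ⟨Λ, hΛ⟩ : ∃ Λ : ℝ, Λ = Cq * (1 + Real.log M) := ⟨_, rfl⟩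
  have hlog : 0 ≤ Real.log M := Real.log_nonneg hM1
  have hΛ0 : 0 ≤ Λ := by rw [hΛ]; positivity
  have hP : ∀ i, ∑ j, (if j = i then 0 else 1 / nr (X i - X j) ^ 3) ≤ Λ := by
    intro i
    rw [hΛ]
    exact HQ M X i hDat.sep
  -- approximation
  obtain ⟨u, hu⟩ := h7 n M X Z E φ G hG
  obtain ⟨l1, l2, l3⟩ := h8 n M X Z E φ G u hG hu
  obtain ⟨hsm, _, _, ⟨M0, hM0⟩, hres⟩ := hu
  obtain ⟨Cp, hCp, HP⟩ := h11 z d hz0.le hd
  obtain ⟨W, hW⟩ : ∃ W : ℝ, W = n * (M : ℝ) ^ (2 / 3 : ℝ) := ⟨_, rfl⟩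
  have hW0 : 0 ≤ W := by rw [hW]; positivity
  obtain ⟨Tk, hTk⟩ : ∃ Tk : ℝ, Tk = Ct * (M * w) := ⟨_, rfl⟩
  have hTk0 : 0 ≤ Tk := by rw [hTk]; positivity
  obtain ⟨B0, hB0⟩ : ∃ B0 : ℝ, B0 = (Cp * (Tk + W) + 1) + Cp * (Tk + W) := ⟨_, rfl⟩
  have hcpT : 0 ≤ Cp * (Tk + W) := by positivity
  have hB00 : 0 ≤ B0 := by rw [hB0]; positivity
  obtain ⟨A, hA⟩ : ∃ A : ℝ, A = Tk + (1 + C * (M * w + Tk)) + (1 + Λ) * (M * w) := ⟨_, rfl⟩
  have hA0 : 0 ≤ A := by rw [hA]; positivity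
  have hd8 : 0 < d / 8 := by linarith
  obtain ⟨f1, -, -, -, -⟩ := HF M X d (d / 8) (d / 8) m hd hDat.sep hd8 le_rfl (by linarith)
  have hMw : 0 ≤ (M : ℝ) * w := by positivity
  have hL0 : ∀ᶠ L : ℕ in atTop, ∀ j, 2 * nr (X j) + 4 ≤ (L : ℝ) + 1 := by
    rw [Filter.eventually_all]
    intro j
    obtain ⟨N, hN⟩ := exists_nat_gt (2 * nr (X j) + 4)
    filter_upwards [eventually_ge_atTop N] with L hL
    have : (N : ℝ) ≤ L := by exact_mod_cast hL
    linarith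
  have hev : ∀ᶠ L : ℕ in atTop,
      PW.sq (PG (fun y => gm m ((L : ℝ) + 1) y - gN X m (d / 8) y) φ G) ^ 2 ≤
        C * (n * (A + B0 / ((L : ℝ) + 1))) := by
    filter_upwards [hL0] with L hL
    have hLp : (0:ℝ) < (L:ℝ) + 1 := by positivity
    obtain ⟨B, hB⟩ : ∃ B : ℝ, B = Tk + B0 + |M0| := ⟨_, rfl⟩
    obtain ⟨C', hC', HI⟩ := HR z ((L : ℝ) + 1) Λ B E n M X Z hDat hG.low
      (by linarith [(Nat.cast_nonneg L : (0:ℝ) ≤ L)]) hΛ0 hL hP
    have hevj : ∀ᶠ j in atTop,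
        PW.sq (fun s => Pg (fun y => gm m ((L : ℝ) + 1) y - gN X m (d / 8) y) (u j s)) ^ 2 ≤
          C * (n * (A + B0 / ((L : ℝ) + 1))) + C' * Real.sqrt (resM X Z E (u j)) := by
      have e1 : ∀ᶠ j in atTop, PW.sq (u j) ≤ 2 :=
        l1.eventually_le_const (by norm_num : (1:ℝ) < 2)
      have e2 : ∀ᶠ j in atTop, resM X Z E (u j) ≤ 1 / 2 :=
        hres.eventually_le_const (by norm_num : (0:ℝ) < 1 / 2)
      filter_upwards [e1, e2] with j hj1 hj2
      have hQ := innm_Q_le_one h9 h10 X Z E (u j) (hsm j).1 hE hj1 hj2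
      have hQ2 := Pool.Agent.Helper39.LN.mtl_en h9 h10 X Z E 0 le_rfl (by linarith) (u j)
        (hsm j).1 hj1 hj2
      obtain ⟨t1, t2⟩ := HT z E n M X Z (u j) hDat hM hEn (hsm j).1 (hsm j).2 hj1 hj2
      rw [← hw, ← hTk] at t1 t2
      have p1 := com_kin_nonneg (u j)
      have p2 := com_pair_nonneg (u j)
      have p3 : 0 ≤ one (pot X Z) (u j) :=
        com_one_nonneg _ (innm_pot_nonneg X Z hZ0) _
      have q1 := HP n M X Z (u j) hM hDat.sep hZ0 hDat.le (hsm j).1 hj1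
      rw [← hW] at q1
      have q0 : Cp * (kin (u j) + W) ≤ Cp * (Tk + W) :=
        mul_le_mul_of_nonneg_left (by linarith) hCp.le
      have q2 : pair (u j) ≤ Cp * (Tk + W) + 1 := by
        unfold QM at hQ
        linarith
      have hM2 := le_abs_self M0
      have hM3 := abs_nonneg M0
      have hM4 := hM0 j
      have hb := HI (u j) (hsm j).1 (hsm j).2 hj1 (by linarith) (by linarith) (by linarith)
        (by linarith) (by linarith) m
      refine hb.trans (add_le_add ?_ le_rfl)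
      apply mul_le_mul_of_nonneg_left _ hC.le
      apply mul_le_mul_of_nonneg_left _ hn0
      have y1 : YY C d z X Z (u j) ≤ 1 + C * (M * w + Tk) := by
        unfold YY
        have y2 : C * (z ^ 2 * M + z * one (near1 X d) (u j)) ≤ C * (M * w + Tk) := by
          apply mul_le_mul_of_nonneg_left _ hC.le
          have := mul_le_mul_of_nonneg_right hzw (show (0:ℝ) ≤ M by positivity)
          linarith
        linarith
      have y3 : z * (1 + Λ) * n ≤ (1 + Λ) * (M * w) := by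
        calc z * (1 + Λ) * n ≤ z * (1 + Λ) * (z * M) :=
              mul_le_mul_of_nonneg_left hnz (by positivity)
          _ = (1 + Λ) * (M * z ^ 2) := by ring
          _ ≤ (1 + Λ) * (M * w) := by gcongr
      have y4 : (pair (u j) + one (pot X Z) (u j)) / ((L : ℝ) + 1) ≤ B0 / ((L : ℝ) + 1) :=
        div_le_div_of_nonneg_right (by linarith) hLp.le
      rw [hA]
      linarith
    have hsmf : ContDiff ℝ (⊤ : ℕ∞) (fun y => gm m ((L : ℝ) + 1) y - gN X m (d / 8) y) :=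
      (HC m _ hLp).1.sm.sub f1.sm
    have hcsf : HasCompactSupport (fun y => gm m ((L : ℝ) + 1) y - gN X m (d / 8) y) :=
      (HC m _ hLp).1.cs.sub f1.cs
    have lim1 := (l3 _ hsmf hcsf).pow 2
    have lr : Tendsto (fun j => Real.sqrt (resM X Z E (u j))) atTop (nhds 0) := by
      have := hres.sqrt
      rwa [Real.sqrt_zero] at this
    have lim2 := (lr.const_mul C').const_add (C * (n * (A + B0 / ((L : ℝ) + 1))))
    have hfin := le_of_tendsto_of_tendsto lim1 lim2 hevj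
    rw [mul_zero, add_zero] at hfin
    exact hfin
  have lim1 := (LIMD h5 φ G m hG.lp hG.lpG _ _ _ f1).pow 2
  have hLt : Tendsto (fun L : ℕ => (L:ℝ) + 1) atTop atTop :=
    tendsto_natCast_atTop_atTop.atTop_add tendsto_const_nhds
  have lim2 := (((hLt.const_div_atTop B0).const_add A).const_mul (n : ℝ)).const_mul C
  have hfin := le_of_tendsto_of_tendsto lim1 lim2 hev
  rw [add_zero] at hfin
  refine hfin.trans ?_
  have a1 : A ≤ (Ct + 2 + C * (1 + Ct) + Cq) * ((M * w) * (1 + Real.log M)) := by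
    have b1 : 1 ≤ M * w := by
      calc (1:ℝ) = 1 * 1 := by ring
        _ ≤ M * w := mul_le_mul hM1 hw1 zero_le_one (by positivity)
    have b2 : M * w ≤ (M * w) * (1 + Real.log M) := by nlinarith
    have b3 : A ≤ (Ct + 2 + C * (1 + Ct)) * (M * w) + Λ * (M * w) := by
      rw [hA, hTk]
      nlinarith
    have b4 : (Ct + 2 + C * (1 + Ct)) * (M * w) ≤
        (Ct + 2 + C * (1 + Ct)) * ((M * w) * (1 + Real.log M)) :=
      mul_le_mul_of_nonneg_left b2 (by positivity)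
    have b5 : Λ * (M * w) = Cq * ((M * w) * (1 + Real.log M)) := by rw [hΛ]; ring
    nlinarith
  calc C * (n * A) ≤ C * ((z * M) * ((Ct + 2 + C * (1 + Ct) + Cq) *
        ((M * w) * (1 + Real.log M)))) := by
        apply mul_le_mul_of_nonneg_left _ hC.le
        exact mul_le_mul hnz a1 hA0 (by positivity)
    _ = C * (Ct + 2 + C * (1 + Ct) + Cq) * (M : ℝ) ^ 2 *
        (z ^ (10 / 3 : ℝ) * (1 + Real.log M)) := by rw [hz3]; ring

end Pool.Agent.Helper74.HV
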